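import Pool.Agent.Helper31.BC.Stmts

set_option autoImplicit false

/-! # REL: the vectors satisfy the relaxation -/

namespace Pool.Agent.Helper31.BC

open Pool.Agent.Helper52.Grid
open Pool.Agent.Helper68.LP (pert dbl ucost scale Costs)

theorem rel_pos {h v : ℕ → ℕ → ℕ} {N : ℕ} (hB : Box h v N) {a : Pt} (ha : Vert h v a) :
    1 ≤ a.1 ∧ 1 ≤ a.2 := by
  obtain ⟨x, y⟩ := a
  have hx := hB.hx
  have hy := hB.hy
  have vx := hB.vx
  have vy := hB.vy
  constructor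
  · by_contra hc
    have h0 : x = 0 := by simpa using hc
    subst h0
    rcases ha with g | g | g | g
    · simp only at g
      rw [hx] at g
      omega
    · simp only [Nat.zero_sub] at g
      rw [hx] at g
      omega
    · simp only at g
      rw [vx] at g
      omega
    · simp only at g
      rw [vx] at g
      omega
  · by_contra hc
    have h0 : y = 0 := by simpa using hc
    subst h0
    rcases ha with g | g | g | g
    · simp only at g
      rw [hy] at g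
      omega
    · simp only at g
      rw [hy] at g
      omega
    · simp only at g
      rw [vy] at g
      omega
    · simp only [Nat.zero_sub] at g
      rw [vy] at g
      omega

theorem rel_pick (N c d : ℕ) (hc : c ≤ N) (hd : d ≤ N) (F : ℕ → ℕ → ℝ) :
    ∑ x ∈ Finset.range (N + 1), ∑ y ∈ Finset.range (N + 1),
      (if x = c ∧ y = d then F x y else 0) = F c d := by
  rw [Finset.sum_eq_single c, Finset.sum_eq_single d]
  · simp
  · intro y _ hy
    rw [if_neg fun g => hy g.2]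
  · intro g
    exact absurd (Finset.mem_range.mpr (by omega)) g
  · intro x _ hx
    refine Finset.sum_eq_zero fun y _ => ?_
    rw [if_neg fun g => hx g.1]
  · intro g
    exact absurd (Finset.mem_range.mpr (by omega)) g

theorem rel_deg (hSUM : ST_SUM) {n N : ℕ} {h v : ℕ → ℕ → ℕ} {p : Fin n → Pt} (hB : Box h v N)
    (hp : Function.Injective p) (hmem : ∀ a, Vert h v a ↔ ∃ i, p i = a) (X Y : ℕ → ℕ → ℤ)
    (hX : ∀ x y, X x y ≠ 0 → Vert h v (x, y) ∧ Vert h v (x + 1, y))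
    (hY : ∀ x y, Y x y ≠ 0 → Vert h v (x, y) ∧ Vert h v (x, y + 1)) (i : Fin n) :
    ∑ e : Pair n, (if e.1.1 = i ∨ e.1.2 = i then xv X Y p e else 0) =
      X (p i).1 (p i).2 + X ((p i).1 - 1) (p i).2 + Y (p i).1 (p i).2 +
        Y (p i).1 ((p i).2 - 1) := by
  classical
  have hs := hSUM n N h v X Y p (fun a b => if a = p i ∨ b = p i then 1 else 0) hB
    (fun a b => by simp only [or_comm]) hX hY hp hmem
  have hvi : Vert h v (p i) := (hmem _).mpr ⟨i, rfl⟩
  obtain ⟨h1, h2⟩ := rel_pos hB hvi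
  obtain ⟨h3, h4⟩ := Pool.Agent.Helper68.LP.vert_box hB hvi
  obtain ⟨a, b, hab⟩ : ∃ a b, p i = (a + 1, b + 1) := ⟨(p i).1 - 1, (p i).2 - 1, by
    apply Prod.ext
    · simp only
      omega
    · simp only
      omega⟩
  have hL : ∑ e : Pair n, (if p e.1.1 = p i ∨ p e.1.2 = p i then (1 : ℝ) else 0) *
      (xv X Y p e : ℝ) = ((∑ e : Pair n, (if e.1.1 = i ∨ e.1.2 = i then xv X Y p e else 0) : ℤ) :
      ℝ) := by
    push_cast
    refine Finset.sum_congr rfl fun e _ => ?_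
    simp only [hp.eq_iff]
    split_ifs <;> simp
  rw [hL] at hs
  rw [hab] at h3 h4 hs ⊢
  simp only at h3 h4
  have hR : ∀ x y : ℕ, (if ((x, y) : Pt) = (a + 1, b + 1) ∨ ((x + 1, y) : Pt) = (a + 1, b + 1)
        then (1 : ℝ) else 0) * (X x y : ℝ) +
      (if ((x, y) : Pt) = (a + 1, b + 1) ∨ ((x, y + 1) : Pt) = (a + 1, b + 1)
        then (1 : ℝ) else 0) * (Y x y : ℝ) =
      (((if x = a + 1 ∧ y = b + 1 then (X x y : ℝ) else 0) +
        (if x = a ∧ y = b + 1 then (X x y : ℝ) else 0)) +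
        (if x = a + 1 ∧ y = b + 1 then (Y x y : ℝ) else 0)) +
        (if x = a + 1 ∧ y = b then (Y x y : ℝ) else 0) := by
    intro x y
    simp only [Prod.mk.injEq, Nat.add_right_cancel_iff]
    have e1 : (if x = a + 1 ∧ y = b + 1 ∨ x = a ∧ y = b + 1 then (1 : ℝ) else 0) * (X x y : ℝ) =
        (if x = a + 1 ∧ y = b + 1 then (X x y : ℝ) else 0) +
        (if x = a ∧ y = b + 1 then (X x y : ℝ) else 0) := by
      by_cases g1 : x = a + 1 ∧ y = b + 1
      · have g2 : ¬ (x = a ∧ y = b + 1) := by omega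
        simp [g1]
      · by_cases g2 : x = a ∧ y = b + 1
        · simp [g2]
        · simp [g1, g2]
    have e2 : (if x = a + 1 ∧ y = b + 1 ∨ x = a + 1 ∧ y = b then (1 : ℝ) else 0) * (Y x y : ℝ) =
        (if x = a + 1 ∧ y = b + 1 then (Y x y : ℝ) else 0) +
        (if x = a + 1 ∧ y = b then (Y x y : ℝ) else 0) := by
      by_cases g1 : x = a + 1 ∧ y = b + 1
      · have g2 : ¬ (x = a + 1 ∧ y = b) := by omega
        simp [g1]
      · by_cases g2 : x = a + 1 ∧ y = b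
        · simp [g2]
        · simp [g1, g2]
    rw [e1, e2]
    ring
  have hR2 : ∑ x ∈ Finset.range (N + 1), ∑ y ∈ Finset.range (N + 1),
      ((if ((x, y) : Pt) = (a + 1, b + 1) ∨ ((x + 1, y) : Pt) = (a + 1, b + 1)
        then (1 : ℝ) else 0) * (X x y : ℝ) +
      (if ((x, y) : Pt) = (a + 1, b + 1) ∨ ((x, y + 1) : Pt) = (a + 1, b + 1)
        then (1 : ℝ) else 0) * (Y x y : ℝ)) =
      (X (a + 1) (b + 1) : ℝ) + X a (b + 1) + Y (a + 1) (b + 1) + Y (a + 1) b := by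
    simp only [hR, Finset.sum_add_distrib]
    rw [rel_pick N (a + 1) (b + 1) h3 h4 (fun x y => (X x y : ℝ)),
      rel_pick N a (b + 1) (by omega) h4 (fun x y => (X x y : ℝ)),
      rel_pick N (a + 1) (b + 1) h3 h4 (fun x y => (Y x y : ℝ)),
      rel_pick N (a + 1) b h3 (by omega) (fun x y => (Y x y : ℝ))]
  rw [hR2] at hs
  have e : ∀ c : ℕ, c + 1 - 1 = c := fun c => rfl
  rw [e, e]
  exact_mod_cast hs

theorem rel_two {n : ℕ} (S : Finset (Fin n)) (e : Pair n) (c : ℤ) :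
    ∑ i ∈ S, (if e.1.1 = i ∨ e.1.2 = i then c else 0) =
      (if e.1.1 ∈ S then c else 0) + (if e.1.2 ∈ S then c else 0) := by
  have hne : e.1.1 ≠ e.1.2 := e.2.ne
  have h1 : ∀ i, (if e.1.1 = i ∨ e.1.2 = i then c else 0) =
      (if e.1.1 = i then c else 0) + (if e.1.2 = i then c else 0) := by
    intro i
    by_cases g1 : e.1.1 = i
    · have g2 : ¬ e.1.2 = i := fun g => hne (g1.trans g.symm)
      simp [g1, g2]
    · by_cases g2 : e.1.2 = i
      · simp [g1, g2]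
      · simp [g1, g2]
  simp only [h1, Finset.sum_add_distrib, Finset.sum_ite_eq]

theorem rel_tot (hSUM : ST_SUM) {n N : ℕ} {h v : ℕ → ℕ → ℕ} {p : Fin n → Pt} (hB : Box h v N)
    (hp : Function.Injective p) (hmem : ∀ a, Vert h v a ↔ ∃ i, p i = a) (X Y : ℕ → ℕ → ℤ)
    (hX : ∀ x y, X x y ≠ 0 → Vert h v (x, y) ∧ Vert h v (x + 1, y))
    (hY : ∀ x y, Y x y ≠ 0 → Vert h v (x, y) ∧ Vert h v (x, y + 1)) :
    2 * ∑ e : Pair n, xv X Y p e = ∑ i, (X (p i).1 (p i).2 + X ((p i).1 - 1) (p i).2 +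
      Y (p i).1 (p i).2 + Y (p i).1 ((p i).2 - 1)) := by
  simp only [← rel_deg hSUM hB hp hmem X Y hX hY]
  rw [Finset.sum_comm, Finset.mul_sum]
  refine Finset.sum_congr rfl fun e _ => ?_
  rw [rel_two]
  simp
  ring

theorem rel_all (hSUM : ST_SUM) {n N : ℕ} {h v : ℕ → ℕ → ℕ} {p : Fin n → Pt} (hB : Box h v N)
    (hp : Function.Injective p) (hmem : ∀ a, Vert h v a ↔ ∃ i, p i = a) (X Y : ℕ → ℕ → ℤ)
    (hX : ∀ x y, X x y ≠ 0 → Vert h v (x, y) ∧ Vert h v (x + 1, y))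
    (hY : ∀ x y, Y x y ≠ 0 → Vert h v (x, y) ∧ Vert h v (x, y + 1)) :
    ((∑ e : Pair n, xv X Y p e : ℤ) : ℝ) = ∑ x ∈ Finset.range (N + 1),
      ∑ y ∈ Finset.range (N + 1), ((X x y : ℝ) + (Y x y : ℝ)) := by
  have hs := hSUM n N h v X Y p (fun _ _ => 1) hB (fun _ _ => rfl) hX hY hp hmem
  simp only [one_mul] at hs
  rw [← hs]
  push_cast
  rfl

theorem rel_deg2 (hSUM : ST_SUM) {n N : ℕ} {h v : ℕ → ℕ → ℕ} {p : Fin n → Pt} (hB : Box h v N)
    (hp : Function.Injective p) (hmem : ∀ a, Vert h v a ↔ ∃ i, p i = a) {X Y : ℕ → ℕ → ℤ}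
    (hL : LV h v X Y) (i : Fin n) :
    ∑ e : Pair n, (if e.1.1 = i ∨ e.1.2 = i then xv X Y p e else 0) = 2 := by
  rw [rel_deg hSUM hB hp hmem X Y hL.hV hL.vV]
  have hvi : Vert h v (p i) := (hmem _).mpr ⟨i, rfl⟩
  obtain ⟨h1, h2⟩ := rel_pos hB hvi
  obtain ⟨a, b, hab⟩ : ∃ a b, p i = (a + 1, b + 1) := ⟨(p i).1 - 1, (p i).2 - 1, by
    apply Prod.ext
    · simp only
      omega
    · simp only
      omega⟩
  rw [hab] at hvi ⊢
  exact hL.deg a b hvi

theorem rel_cut (hSUM : ST_SUM) {n N : ℕ} {h v : ℕ → ℕ → ℕ} {p : Fin n → Pt} (hB : Box h v N)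
    (hp : Function.Injective p) (hmem : ∀ a, Vert h v a ↔ ∃ i, p i = a) {X Y : ℕ → ℕ → ℤ}
    (hL : LV h v X Y) (S : Finset (Fin n)) (hS : S.Nonempty) (hS' : S ≠ Finset.univ) :
    2 ≤ ∑ e : Pair n, (if (e.1.1 ∈ S ↔ e.1.2 ∈ S) then 0 else xv X Y p e) := by
  classical
  obtain ⟨S', hS'def⟩ : ∃ S' : Pt → Prop, ∀ a, S' a ↔ ∃ i ∈ S, p i = a := ⟨_, fun _ => Iff.rfl⟩
  have hmS : ∀ i, S' (p i) ↔ i ∈ S := by
    intro i
    rw [hS'def]
    constructor
    · rintro ⟨j, hj, hij⟩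
      rwa [← hp hij]
    · intro hi
      exact ⟨i, hi, rfl⟩
  have h1 : ∃ a, Vert h v a ∧ S' a := by
    obtain ⟨i, hi⟩ := hS
    exact ⟨p i, (hmem _).mpr ⟨i, rfl⟩, (hmS i).mpr hi⟩
  have h2 : ∃ b, Vert h v b ∧ ¬ S' b := by
    obtain ⟨i, hi⟩ : ∃ i, i ∉ S := by
      by_contra hc
      push Not at hc
      exact hS' (Finset.eq_univ_iff_forall.mpr hc)
    exact ⟨p i, (hmem _).mpr ⟨i, rfl⟩, fun g => hi ((hmS i).mp g)⟩
  have hcut := hL.cut N hB S' h1 h2
  have hs := hSUM n N h v X Y p (fun a b => if (S' a ↔ S' b) then 0 else 1) hB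
    (fun a b => by
      by_cases g : (S' a ↔ S' b)
      · rw [if_pos g, if_pos g.symm]
      · rw [if_neg g, if_neg fun g' => g g'.symm]) hL.hV hL.vV hp hmem
  have hpos : 0 < ∑ e : Pair n, (if (e.1.1 ∈ S ↔ e.1.2 ∈ S) then 0 else xv X Y p e) := by
    have e1 : ∑ e : Pair n, (if (S' (p e.1.1) ↔ S' (p e.1.2)) then (0 : ℝ) else 1) *
        (xv X Y p e : ℝ) =
        ((∑ e : Pair n, (if (e.1.1 ∈ S ↔ e.1.2 ∈ S) then 0 else xv X Y p e) : ℤ) : ℝ) := by
      push_cast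
      refine Finset.sum_congr rfl fun e _ => ?_
      rw [hmS, hmS]
      split_ifs <;> simp
    have e2 : ∑ x ∈ Finset.range (N + 1), ∑ y ∈ Finset.range (N + 1),
        ((if (S' (x, y) ↔ S' (x + 1, y)) then (0 : ℝ) else 1) * (X x y : ℝ) +
          (if (S' (x, y) ↔ S' (x, y + 1)) then (0 : ℝ) else 1) * (Y x y : ℝ)) =
        ((∑ x ∈ Finset.range (N + 1), ∑ y ∈ Finset.range (N + 1),
          ((if (S' (x, y) ↔ S' (x + 1, y)) then 0 else X x y) +
            (if (S' (x, y) ↔ S' (x, y + 1)) then 0 else Y x y)) : ℤ) : ℝ) := by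
      push_cast
      refine Finset.sum_congr rfl fun x _ => Finset.sum_congr rfl fun y _ => ?_
      split_ifs <;> simp
    rw [e1, e2] at hs
    have hs' : ∑ e : Pair n, (if (e.1.1 ∈ S ↔ e.1.2 ∈ S) then 0 else xv X Y p e) = _ :=
      Int.cast_injective hs
    rw [hs']
    exact lt_of_lt_of_eq hcut
      (Finset.sum_congr rfl fun x _ => Finset.sum_congr rfl fun y _ => by
        split_ifs <;> rfl)
  have hpar : (2 : ℤ) * S.card =
      ∑ e : Pair n, (if (e.1.1 ∈ S ↔ e.1.2 ∈ S) then 0 else xv X Y p e) +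
        2 * ∑ e : Pair n, (if (e.1.1 ∈ S ∧ e.1.2 ∈ S) then xv X Y p e else 0) := by
    have e3 : ∑ i ∈ S, ∑ e : Pair n, (if e.1.1 = i ∨ e.1.2 = i then xv X Y p e else 0) =
        2 * S.card := by
      rw [Finset.sum_congr rfl fun i _ => rel_deg2 hSUM hB hp hmem hL i, Finset.sum_const]
      simp [mul_comm]
    rw [← e3, Finset.sum_comm, Finset.mul_sum, ← Finset.sum_add_distrib]
    refine Finset.sum_congr rfl fun e _ => ?_
    rw [rel_two]
    by_cases g1 : e.1.1 ∈ S <;> by_cases g2 : e.1.2 ∈ S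
    · simp [g1, g2]
      ring
    · simp [g1, g2]
    · simp [g1, g2]
    · simp [g1, g2]
  omega

theorem rel_le {n : ℕ} {h v : ℕ → ℕ → ℕ} {p : Fin n → Pt} {X Y : ℕ → ℕ → ℤ}
    (hL : LV h v X Y) (e : Pair n) : xv X Y p e ≤ 1 := by
  unfold xv ucost
  split_ifs
  · exact hL.hle _ _
  · exact hL.hle _ _
  · exact hL.vle _ _
  · exact hL.vle _ _
  · norm_num

/-- a finite set containing the neighbours -/
def relNb (a : Pt) : Finset Pt :=
  {(a.1 + 1, a.2), (a.1 - 1, a.2), (a.1, a.2 + 1), (a.1, a.2 - 1)}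

theorem rel_mem_nb {a b : Pt} (hn : Pool.Agent.Helper68.LP.Nb a b) : b ∈ relNb a := by
  obtain ⟨x, y⟩ := a
  obtain ⟨x', y'⟩ := b
  unfold relNb
  unfold Pool.Agent.Helper68.LP.Nb at hn
  simp only [Finset.mem_insert, Finset.mem_singleton, Prod.mk.injEq] at hn ⊢
  omega

theorem rel_count {n : ℕ} {p : Fin n → Pt} (hp : Function.Injective p) :
    ((Finset.univ : Finset (Pair n)).filter fun e =>
      Pool.Agent.Helper68.LP.Nb (p e.1.1) (p e.1.2)).card ≤ 4 * n := by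
  classical
  have h1 : ((Finset.univ : Finset (Pair n)).filter fun e =>
      Pool.Agent.Helper68.LP.Nb (p e.1.1) (p e.1.2)).card ≤
      ((Finset.univ : Finset (Fin n)).sigma fun i => relNb (p i)).card := by
    apply Finset.card_le_card_of_injOn (fun e => (⟨e.1.1, p e.1.2⟩ : Σ _ : Fin n, Pt))
    · intro e he
      have he' := (Finset.mem_filter.mp he).2
      exact Finset.mem_coe.mpr (Finset.mem_sigma.mpr ⟨Finset.mem_univ _, rel_mem_nb he'⟩)
    · intro e _ e' _ hee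
      simp only [Sigma.mk.injEq, heq_eq_eq] at hee
      exact Subtype.ext (Prod.ext hee.1 (hp hee.2))
  refine h1.trans ?_
  rw [Finset.card_sigma]
  calc ∑ i : Fin n, (relNb (p i)).card ≤ ∑ _i : Fin n, 4 :=
        Finset.sum_le_sum fun i _ => Finset.card_le_four
    _ = 4 * n := by simp [mul_comm]

/-- the total cost of the vector -/
theorem rel_cost (hSUM : ST_SUM) {n N W : ℕ} {h v : ℕ → ℕ → ℕ} {p : Fin n → Pt} (hB : Box h v N)
    (hc : Costs h v) (hp : Function.Injective p) (hmem : ∀ a, Vert h v a ↔ ∃ i, p i = a)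
    {X Y : ℕ → ℕ → ℤ} (hL : LV h v X Y)
    (hW : W + ∑ i, Pool.Agent.Helper68.LP.fdeg h v (p i) = 2 * n) :
    ∑ e : Pair n, xv X Y p e = n ∧
    ∑ e : Pair n, (ucost (dbl h) (dbl v) 0 (p e.1.1) (p e.1.2) : ℝ) * (xv X Y p e : ℝ) =
      2 * W := by
  have hn1 : 2 * ∑ e : Pair n, xv X Y p e = 2 * n := by
    have e1 : ∑ i : Fin n, ∑ e : Pair n, (if e.1.1 = i ∨ e.1.2 = i then xv X Y p e else 0) =
        2 * n := by
      rw [Finset.sum_congr rfl fun i _ => rel_deg2 hSUM hB hp hmem hL i, Finset.sum_const]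
      simp [mul_comm]
    rw [← e1, Finset.sum_comm, Finset.mul_sum]
    refine Finset.sum_congr rfl fun e _ => ?_
    rw [rel_two]
    simp
    ring
  have hn2 : ∑ e : Pair n, xv X Y p e = n := by omega
  refine ⟨hn2, ?_⟩
  obtain ⟨X1, hX1⟩ : ∃ X1 : ℕ → ℕ → ℤ, X1 = fun x y => if h x y = 0 then 1 else 0 := ⟨_, rfl⟩
  obtain ⟨Y1, hY1⟩ : ∃ Y1 : ℕ → ℕ → ℤ, Y1 = fun x y => if v x y = 0 then 1 else 0 := ⟨_, rfl⟩
  have sX : ∀ x y, X1 x y ≠ 0 → Vert h v (x, y) ∧ Vert h v (x + 1, y) := by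
    intro x y g
    have g0 : h x y = 0 := by
      by_contra hne
      rw [hX1] at g
      simp [hne] at g
    exact ⟨Or.inl g0, Or.inr (Or.inl g0)⟩
  have sY : ∀ x y, Y1 x y ≠ 0 → Vert h v (x, y) ∧ Vert h v (x, y + 1) := by
    intro x y g
    have g0 : v x y = 0 := by
      by_contra hne
      rw [hY1] at g
      simp [hne] at g
    exact ⟨Or.inr (Or.inr (Or.inl g0)), Or.inr (Or.inr (Or.inr g0))⟩
  have t1 := rel_tot hSUM hB hp hmem X1 Y1 sX sY
  have t2 := rel_all hSUM hB hp hmem X1 Y1 sX sY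
  have t3 := rel_all hSUM hB hp hmem X Y hL.hV hL.vV
  have t4 : ∑ i, (X1 (p i).1 (p i).2 + X1 ((p i).1 - 1) (p i).2 +
      Y1 (p i).1 (p i).2 + Y1 (p i).1 ((p i).2 - 1)) =
      ((∑ i, Pool.Agent.Helper68.LP.fdeg h v (p i) : ℕ) : ℤ) := by
    push_cast
    refine Finset.sum_congr rfl fun i _ => ?_
    rw [hX1, hY1]
    unfold Pool.Agent.Helper68.LP.fdeg
    push_cast
    rfl
  have hW' : (W : ℝ) + ((∑ i, Pool.Agent.Helper68.LP.fdeg h v (p i) : ℕ) : ℝ) = 2 * n := by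
    exact_mod_cast hW
  have t5 : (2 : ℝ) * ((∑ e : Pair n, xv X1 Y1 p e : ℤ) : ℝ) =
      ((∑ i, Pool.Agent.Helper68.LP.fdeg h v (p i) : ℕ) : ℝ) := by
    have := t1.trans t4
    exact_mod_cast this
  have hs := hSUM n N h v X Y p (fun a b => (ucost (dbl h) (dbl v) 0 a b : ℝ)) hB
    (fun a b => by
      rw [Pool.Agent.Helper68.LP.ucost_comm]) hL.hV hL.vV hp hmem
  rw [hs]
  have hpt : ∀ x y, (ucost (dbl h) (dbl v) 0 (x, y) (x + 1, y) : ℝ) * (X x y : ℝ) +
      (ucost (dbl h) (dbl v) 0 (x, y) (x, y + 1) : ℝ) * (Y x y : ℝ) =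
      4 * (((X x y : ℝ) + (Y x y : ℝ)) - ((X1 x y : ℝ) + (Y1 x y : ℝ))) := by
    intro x y
    have u1 : ucost (dbl h) (dbl v) 0 (x, y) (x + 1, y) = 2 * (h x y : ℤ) := by
      simp [ucost, dbl]
    have u2 : ucost (dbl h) (dbl v) 0 (x, y) (x, y + 1) = 2 * (v x y : ℤ) := by
      simp [ucost, dbl]
    rw [u1, u2]
    have w1 : (2 * (h x y : ℝ)) * (X x y : ℝ) = 4 * ((X x y : ℝ) - (X1 x y : ℝ)) := by
      rcases hc.1 x y with g | g | g
      · have := hL.h0 x y g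
        simp [hX1, g, this]
      · have h1 : X1 x y = 0 := by
          rw [hX1]
          simp [g]
        rw [h1, g]
        push_cast
        ring
      · have := hL.h4 x y (by omega) (by omega)
        simp [hX1, g, this]
    have w2 : (2 * (v x y : ℝ)) * (Y x y : ℝ) = 4 * ((Y x y : ℝ) - (Y1 x y : ℝ)) := by
      rcases hc.2 x y with g | g | g
      · have := hL.v0 x y g
        simp [hY1, g, this]
      · have h1 : Y1 x y = 0 := by
          rw [hY1]
          simp [g]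
        rw [h1, g]
        push_cast
        ring
      · have := hL.v4 x y (by omega) (by omega)
        simp [hY1, g, this]
    push_cast
    rw [w1, w2]
    ring
  simp only [hpt, ← Finset.mul_sum]
  simp only [Finset.sum_sub_distrib]
  rw [← t2, ← t3, hn2]
  push_cast
  push_cast at t5 hW'
  linarith

/-- the length of one pair -/
theorem rel_one {n N M : ℕ} {h v : ℕ → ℕ → ℕ} {p : Fin n → Pt} (hB : Box h v N)
    (hc : Costs h v) (hp : Function.Injective p) (hmem : ∀ a, Vert h v a ↔ ∃ i, p i = a)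
    {X Y : ℕ → ℕ → ℤ} (hL : LV h v X Y) (hM : 8 * (N * 8) + 8 < M) (e : Pair n) :
    dst (pert (dbl h) (dbl v) (M : ℕ) (p e.1.1)) (pert (dbl h) (dbl v) (M : ℕ) (p e.1.2)) *
      (xv X Y p e : ℝ) ≤
    (M : ℝ) * (xv X Y p e : ℝ) +
      (ucost (dbl h) (dbl v) 0 (p e.1.1) (p e.1.2) : ℝ) * (xv X Y p e : ℝ) +
      (if Pool.Agent.Helper68.LP.Nb (p e.1.1) (p e.1.2) then
        (2 * ((N * 8 : ℕ) : ℝ)) ^ 2 / (2 * ((M : ℝ) - 8)) else 0) := by
  have hbox : Pool.Agent.Helper68.LP.Box (dbl h) (dbl v) N 8 := by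
    constructor
    · intro x y
      unfold dbl
      rcases hc.1 x y with g | g | g <;> rw [g] <;> norm_num
    · intro x y
      unfold dbl
      rcases hc.2 x y with g | g | g <;> rw [g] <;> norm_num
  have hb1 := Pool.Agent.Helper68.LP.vert_box hB ((hmem (p e.1.1)).mpr ⟨_, rfl⟩)
  have hb2 := Pool.Agent.Helper68.LP.vert_box hB ((hmem (p e.1.2)).mpr ⟨_, rfl⟩)
  have hne : p e.1.1 ≠ p e.1.2 := fun g => e.2.ne (hp g)
  have hMr : ((8 * (N * 8) + 8 : ℕ) : ℝ) < M := by exact_mod_cast hM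
  have hM8 : (8 : ℝ) < M := by
    push_cast at hMr
    have : (0 : ℝ) ≤ 8 * (N * 8) := by positivity
    linarith
  have herr : 0 ≤ (if Pool.Agent.Helper68.LP.Nb (p e.1.1) (p e.1.2) then
        (2 * ((N * 8 : ℕ) : ℝ)) ^ 2 / (2 * ((M : ℝ) - 8)) else 0) := by
    split_ifs
    · apply div_nonneg (by positivity)
      linarith
    · exact le_rfl
  have hle : xv X Y p e ≤ 1 := rel_le hL e
  have hlow := Pool.Agent.Helper68.LP.le_dE (M := ((M : ℕ) : ℤ)) (K := 0) hbox hb1 hb2 hne le_rfl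
    (by
      push_cast
      have : (8 * (N * 8) + 8 : ℤ) < M := by exact_mod_cast hM
      linarith)
  by_cases hx : xv X Y p e = 1
  · have hnb : Pool.Agent.Helper68.LP.Nb (p e.1.1) (p e.1.2) := by
      by_contra hn
      have h0 : xv X Y p e = 0 := Pool.Agent.Helper68.LP.ucost_not hn
      rw [hx] at h0
      exact one_ne_zero h0
    have hup := Pool.Agent.Helper68.LP.dE_le_of_nb (M := ((M : ℕ) : ℤ)) (K := 0) hbox hb1 hb2 hnb
      (by
        have : (8 * (N * 8) + 8 : ℤ) < M := by exact_mod_cast hM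
        push_cast
        have h8 : (0 : ℤ) ≤ 8 * (N * 8) := by positivity
        linarith)
    rw [if_pos hnb, hx]
    push_cast at hup ⊢
    change Pool.Agent.Helper68.LP.dE _ _ * 1 ≤ _
    linarith
  · have hx0 : xv X Y p e ≤ 0 := by omega
    have hx0' : (xv X Y p e : ℝ) ≤ 0 := by exact_mod_cast hx0
    have h1 := mul_le_mul_of_nonpos_right hlow hx0'
    push_cast at h1
    change Pool.Agent.Helper68.LP.dE _ _ * _ ≤ _
    push_cast at herr ⊢
    linarith

theorem st_REL (hSUM : ST_SUM) : ST_REL := by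
  intro n N W h v X Y p hB hc hL hn hp hmem hW
  obtain ⟨M, hMdef⟩ : ∃ M, M = scale n (2 * N) 4 W := ⟨_, rfl⟩
  rw [← hMdef]
  refine ⟨rel_deg2 hSUM hB hp hmem hL, rel_cut hSUM hB hp hmem hL, rel_le hL, ?_⟩
  have hMval : M = 512 * n * N ^ 2 + 128 * N + 6 * W + 15 := by
    rw [hMdef]
    unfold scale
    ring
  have hM1 : 8 * (N * 8) + 8 < M := by
    rw [hMval]
    have : 0 ≤ 512 * n * N ^ 2 := Nat.zero_le _
    omega
  obtain ⟨hn1, hcost⟩ := rel_cost hSUM hB hc hp hmem hL hW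
  have hsum := Finset.sum_le_sum fun (e : Pair n) (_ : e ∈ Finset.univ) =>
    rel_one hB hc hp hmem hL hM1 e
  refine hsum.trans ?_
  rw [Finset.sum_add_distrib, Finset.sum_add_distrib, ← Finset.mul_sum, hcost,
    ← Finset.sum_filter, Finset.sum_const, nsmul_eq_mul]
  have hn1' : ∑ e : Pair n, (xv X Y p e : ℝ) = n := by exact_mod_cast hn1
  rw [hn1']
  have hcnt : ((((Finset.univ : Finset (Pair n)).filter fun e =>
      Pool.Agent.Helper68.LP.Nb (p e.1.1) (p e.1.2)).card : ℕ) : ℝ) ≤ 4 * n := by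
    exact_mod_cast rel_count hp
  have hMr : (M : ℝ) = 512 * n * N ^ 2 + 128 * N + 6 * W + 15 := by exact_mod_cast hMval
  have hpos : (0 : ℝ) < 2 * ((M : ℝ) - 8) := by
    rw [hMr]
    have h1 : (0 : ℝ) ≤ 512 * n * N ^ 2 + 128 * N + 6 * W := by positivity
    linarith
  have herr0 : 0 ≤ (2 * ((N * 8 : ℕ) : ℝ)) ^ 2 / (2 * ((M : ℝ) - 8)) :=
    div_nonneg (by positivity) hpos.le
  have herr : 4 * (n : ℝ) * ((2 * ((N * 8 : ℕ) : ℝ)) ^ 2 / (2 * ((M : ℝ) - 8))) ≤ 1 := by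
    rw [mul_div_assoc', div_le_one hpos, hMr]
    push_cast
    have h1 : (0 : ℝ) ≤ 128 * N + 6 * W := by positivity
    linarith
  have h2 := mul_le_mul_of_nonneg_right hcnt herr0
  push_cast
  push_cast at h2 herr
  linarith

end Pool.Agent.Helper31.BC
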